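import Mathlib

open SimpleGraph

namespace Pool.Agent.Results.MP_936e79_co.NoLinearBound

/-- A simple cycle of `G`: `len ≥ 3` distinct vertices `pt i`, cyclically adjacent. -/
structure CycleIn {V : Type} (G : SimpleGraph V) where
  len : ℕ
  three_le : 3 ≤ len
  pt : ZMod len → V
  inj : Function.Injective pt
  adj : ∀ i, G.Adj (pt i) (pt (i + 1))

/-- the distance along the cycle between the vertices with indices `i` and `j` -/
def CycleIn.cdist {V : Type} {G : SimpleGraph V} (C : CycleIn G) (i j : ZMod C.len) : ℕ :=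
  min (i - j).val (j - i).val

/-- `C` is `μ`-locally geodesic -/
def LocallyGeodesic {V : Type} {G : SimpleGraph V} (C : CycleIn G) (μ : ℕ) : Prop :=
  ∀ i j : ZMod C.len, G.dist (C.pt i) (C.pt j) = C.cdist i j → C.cdist i j ≤ μ

/-- `S` (a set of indices) is a side of non-`μ`-locality of `C` -/
def IsSide {V : Type} {G : SimpleGraph V} (C : CycleIn G) (μ : ℕ) (S : Set (ZMod C.len)) : Prop :=
  ∃ i : ZMod C.len, G.dist (C.pt i) (C.pt (i + ((μ + 1 : ℕ) : ZMod C.len))) = μ + 1 ∧
    C.cdist i (i + ((μ + 1 : ℕ) : ZMod C.len)) = μ + 1 ∧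
    S = {j | ∃ t : ℕ, t ≤ μ + 1 ∧ j = i + (t : ZMod C.len)}

/-- the vertices with indices `v`, `z` form a `k`-bridge of `C` -/
def IsKBridge {V : Type} {G : SimpleGraph V} (C : CycleIn G) (k : ℕ) (v z : ZMod C.len) : Prop :=
  G.dist (C.pt v) (C.pt z) ≤ k ∧ k < C.cdist v z

/-- the parameter `bgc(G)` -/
noncomputable def bgc {V : Type} (G : SimpleGraph V) : ℕ :=
  sInf {μ | 1 ≤ μ ∧ ∀ C : CycleIn G, ¬ LocallyGeodesic C μ → ∀ S, IsSide C μ S →
    ∃ v ∈ S, ∃ z, z ∉ S ∧ IsKBridge C ((μ + 1) / 2) v z}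

/-- the parameter `BGC(G)` -/
noncomputable def BGC {V : Type} (G : SimpleGraph V) : ℕ :=
  sInf {μ | 1 ≤ μ ∧ ∀ C : CycleIn G, ¬ LocallyGeodesic C μ → ∃ v z, IsKBridge C ((μ + 1) / 2) v z}

/-! ### generalities -/

theorem cdist_le {V : Type} {G : SimpleGraph V} (C : CycleIn G) (i j : ZMod C.len) : 2 * C.cdist i j ≤ C.len := by
  have : NeZero C.len := ⟨by have := C.three_le; omega⟩
  unfold CycleIn.cdist
  have h1 : (i - j).val + (j - i).val ≤ C.len := by
    have h := ZMod.neg_val (i - j)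
    rw [neg_sub] at h
    rw [h]
    have := ZMod.val_lt (i - j)
    split_ifs <;> omega
  omega

theorem cdist_add {V : Type} {G : SimpleGraph V} (C : CycleIn G) (i : ZMod C.len) (t : ℕ) (ht : 2 * t ≤ C.len) :
    C.cdist i (i + (t : ZMod C.len)) = t := by
  have h3 := C.three_le
  have : NeZero C.len := ⟨by omega⟩
  unfold CycleIn.cdist
  have h1 : (i + (t : ZMod C.len) - i).val = t := by
    rw [add_sub_cancel_left, ZMod.val_natCast, Nat.mod_eq_of_lt (by omega)]
  have h2 : (i - (i + (t : ZMod C.len))).val = (-(t : ZMod C.len)).val := by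
    congr 1; ring
  rw [h1, h2, ZMod.neg_val]
  split_ifs with h
  · have := congrArg ZMod.val h
    rw [ZMod.val_natCast, Nat.mod_eq_of_lt (by omega), ZMod.val_zero] at this
    omega
  · rw [ZMod.val_natCast, Nat.mod_eq_of_lt (by omega)]
    omega

theorem lip {V : Type} {G : SimpleGraph V} (hG : G.Connected) (f : V → ℤ) (hf : ∀ a b, G.Adj a b → f a ≤ f b + 1)
    (a b : V) : f a ≤ f b + G.dist a b := by
  obtain ⟨w, hw⟩ := (hG.preconnected a b).exists_walk_length_eq_dist
  rw [← hw]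
  clear hw
  induction w with
  | nil => simp
  | cons h p ih =>
    have := hf _ _ h
    rw [Walk.length_cons]
    push_cast
    linarith

theorem bgc_set_nonempty {V : Type} [Finite V] (G : SimpleGraph V) :
    ({μ | 1 ≤ μ ∧ ∀ C : CycleIn G, ¬ LocallyGeodesic C μ → ∀ S, IsSide C μ S →
    ∃ v ∈ S, ∃ z, z ∉ S ∧ IsKBridge C ((μ + 1) / 2) v z}).Nonempty := by
  refine ⟨Nat.card V + 1, by omega, fun C hC => absurd ?_ hC⟩
  intro i j _
  have h3 := C.three_le
  have : NeZero C.len := ⟨by omega⟩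
  have h1 := cdist_le C i j
  have h2 := Nat.card_le_card_of_injective C.pt C.inj
  rw [Nat.card_zmod] at h2
  omega

/-! ### the graph -/

abbrev XV (R : ℕ) := {p : ℕ × ℕ // p.1 ≤ R ∧ p.2 < 2 ^ p.1}

instance (R : ℕ) : Finite (XV R) := by
  apply Finite.of_injective (fun x : XV R => ((⟨x.1.1, by have := x.2.1; omega⟩ : Fin (R + 1)),
    (⟨x.1.2, x.2.2.trans_le (Nat.pow_le_pow_right (by norm_num) x.2.1)⟩ : Fin (2 ^ R))))
  intro x y h
  simp only [Prod.mk.injEq, Fin.mk.injEq] at h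
  exact Subtype.ext (Prod.ext h.1 h.2)

/-- complete binary tree of depth `R` with all its levels turned into paths -/
def XG (R : ℕ) : SimpleGraph (XV R) where
  Adj x y := (x.1.1 = y.1.1 ∧ (y.1.2 = x.1.2 + 1 ∨ x.1.2 = y.1.2 + 1)) ∨
    (y.1.1 = x.1.1 + 1 ∧ y.1.2 / 2 = x.1.2) ∨ (x.1.1 = y.1.1 + 1 ∧ x.1.2 / 2 = y.1.2)
  symm := ⟨fun x y h => by omega⟩
  loopless := ⟨fun x h => by omega⟩

theorem XG_adj {R : ℕ} (x y : XV R) : (XG R).Adj x y ↔ ((x.1.1 = y.1.1 ∧ (y.1.2 = x.1.2 + 1 ∨ x.1.2 = y.1.2 + 1)) ∨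
    (y.1.1 = x.1.1 + 1 ∧ y.1.2 / 2 = x.1.2) ∨ (x.1.1 = y.1.1 + 1 ∧ x.1.2 / 2 = y.1.2)) := Iff.rfl

theorem XG_connected (R : ℕ) : (XG R).Connected := by
  have hroot : ∀ j : ℕ, ∀ x : XV R, x.1.1 = j → (XG R).Reachable x ⟨(0, 0), by simp⟩ := by
    intro j
    induction j with
    | zero =>
      intro x hx
      have h1 := x.2.2
      rw [hx, pow_zero] at h1
      have : x = ⟨(0, 0), by simp⟩ := Subtype.ext (Prod.ext hx (by simp; omega))
      rw [this]
    | succ j ih =>
      intro x hx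
      have h1 := x.2.2
      have h0 := x.2.1
      rw [hx] at h1
      have hy : j ≤ R ∧ x.1.2 / 2 < 2 ^ j := ⟨by omega, by rw [pow_succ] at h1; omega⟩
      have hadj : (XG R).Adj x ⟨(j, x.1.2 / 2), hy⟩ := by
        rw [XG_adj]; right; right; exact ⟨hx, rfl⟩
      exact hadj.reachable.trans (ih _ rfl)
  rw [connected_iff]
  exact ⟨fun x y => (hroot _ x rfl).trans (hroot _ y rfl).symm, ⟨⟨(0, 0), by simp⟩⟩⟩

theorem hor {R : ℕ} : ∀ d : ℕ, ∀ x y : XV R, x.1.1 = y.1.1 → y.1.2 = x.1.2 + d → (XG R).dist x y ≤ d := by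
  intro d
  induction d with
  | zero =>
    intro x y h1 h2
    have : x = y := Subtype.ext (Prod.ext h1 (by omega))
    rw [this, dist_self]
  | succ d ih =>
    intro x y h1 h2
    have hy := y.2
    have hz : x.1.1 ≤ R ∧ x.1.2 + d < 2 ^ x.1.1 := ⟨x.2.1, by rw [h1]; omega⟩
    have h3 := ih x ⟨(x.1.1, x.1.2 + d), hz⟩ rfl rfl
    have hadj : (XG R).Adj ⟨(x.1.1, x.1.2 + d), hz⟩ y := by
      rw [XG_adj]; left; exact ⟨h1, Or.inl (by simp only; omega)⟩
    have h4 := (XG_connected R).dist_triangle (u := x) (v := ⟨(x.1.1, x.1.2 + d), hz⟩) (w := y)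
    have h5 := SimpleGraph.dist_eq_one_iff_adj.2 hadj
    omega

theorem hor' {R : ℕ} (x y : XV R) (h : x.1.1 = y.1.1) (d : ℕ) (h1 : x.1.2 ≤ y.1.2 + d) (h2 : y.1.2 ≤ x.1.2 + d) :
    (XG R).dist x y ≤ d := by
  rcases le_total x.1.2 y.1.2 with h3 | h3
  · exact (hor (y.1.2 - x.1.2) x y h (by omega)).trans (by omega)
  · rw [dist_comm]
    exact (hor (x.1.2 - y.1.2) y x h.symm (by omega)).trans (by omega)

theorem stepJ {R : ℕ} {x y : XV R} {J : ℕ} (h : (XG R).Adj x y) (hx : x.1.1 = J) (hy : y.1.1 = J) :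
    y.1.2 ≤ x.1.2 + 1 ∧ x.1.2 ≤ y.1.2 + 1 := by
  rw [XG_adj] at h; omega

theorem stepUp {R : ℕ} {x y : XV R} {J : ℕ} (h : (XG R).Adj x y) (hx : x.1.1 = J) (hy : y.1.1 ≤ J) (hy' : y.1.1 ≠ J) :
    y.1.1 + 1 = J ∧ y.1.2 = x.1.2 / 2 := by
  rw [XG_adj] at h; omega

/-- every cycle has two vertices at cyclic offset six and distance at most five -/
theorem short {R : ℕ} (C : CycleIn (XG R)) : ∃ i : ZMod C.len, (XG R).dist (C.pt i) (C.pt (i + (6 : ℕ))) ≤ 5 := by
  have h3 := C.three_le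
  have hne : NeZero C.len := ⟨by omega⟩
  have h2 : (2 : ZMod C.len) ≠ 0 := by
    intro h
    have h4 := congrArg ZMod.val h
    have h5 : ((2 : ℕ) : ZMod C.len) = 2 := by norm_num
    rw [← h5, ZMod.val_natCast, Nat.mod_eq_of_lt (by omega), ZMod.val_zero] at h4
    omega
  have hne2 : ∀ i : ZMod C.len, C.pt (i + 1 + 1) ≠ C.pt i := by
    intro i h
    have := C.inj h
    apply h2
    have h6 : i + 2 = i + 0 := by
      rw [add_zero]
      have h7 : i + 2 = i + 1 + 1 := by ring
      rw [h7]; exact this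
    exact add_left_cancel h6
  obtain ⟨i0, hi0⟩ := Finite.exists_max (fun i : ZMod C.len => (C.pt i).1.1)
  set J := (C.pt i0).1.1 with hJ
  have hconn := XG_connected R
  -- an entry to the top level
  have hentry : ∃ i : ZMod C.len, (C.pt i).1.1 ≠ J ∧ (C.pt (i + 1)).1.1 = J := by
    by_contra hcon
    push Not at hcon
    have hall : ∀ t : ℕ, (C.pt (i0 - (t : ZMod C.len))).1.1 = J := by
      intro t
      induction t with
      | zero => simp [hJ]
      | succ t ih =>
        by_contra hne'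
        refine hcon _ hne' ?_
        push_cast
        rw [← ih]
        congr 3
        ring
    have hall' : ∀ z : ZMod C.len, (C.pt z).1.1 = J := by
      intro z
      have := hall (i0 - z).val
      rw [ZMod.natCast_zmod_val] at this
      rwa [sub_sub_cancel] at this
    obtain ⟨i1, hi1⟩ := Finite.exists_max (fun i : ZMod C.len => (C.pt i).1.2)
    have ha := C.adj i1
    have hb := C.adj (i1 - 1)
    rw [sub_add_cancel] at hb
    rw [XG_adj] at ha hb
    have e1 := hi1 (i1 + 1)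
    have e2 := hi1 (i1 - 1)
    have e3 := hall' i1
    have e4 := hall' (i1 + 1)
    have e5 := hall' (i1 - 1)
    have e6 : (C.pt (i1 + 1)).1.2 = (C.pt (i1 - 1)).1.2 := by
      omega
    have e7 : C.pt (i1 - 1 + 1 + 1) = C.pt (i1 - 1) := by
      rw [sub_add_cancel]
      exact Subtype.ext (Prod.ext (by omega) e6)
    exact hne2 _ e7
  obtain ⟨i, hi, hi'⟩ := hentry
  refine ⟨i, ?_⟩
  have hmax : ∀ z, (C.pt z).1.1 ≤ J := hi0
  have a0 := C.adj i
  have a1 := C.adj (i + 1)
  have a2 := C.adj (i + 1 + 1)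
  have a3 := C.adj (i + 1 + 1 + 1)
  have a4 := C.adj (i + 1 + 1 + 1 + 1)
  have a5 := C.adj (i + 1 + 1 + 1 + 1 + 1)
  have e6 : i + ((6 : ℕ) : ZMod C.len) = i + 1 + 1 + 1 + 1 + 1 + 1 := by push_cast; ring
  rw [e6]
  have d2 := SimpleGraph.dist_eq_one_iff_adj.2 a2
  have d3 := SimpleGraph.dist_eq_one_iff_adj.2 a3
  have d4 := SimpleGraph.dist_eq_one_iff_adj.2 a4
  have d5 := SimpleGraph.dist_eq_one_iff_adj.2 a5
  have n0 := hne2 i
  have m0 := hmax i
  have m2 := hmax (i + 1 + 1)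
  have m3 := hmax (i + 1 + 1 + 1)
  have m4 := hmax (i + 1 + 1 + 1 + 1)
  have m5 := hmax (i + 1 + 1 + 1 + 1 + 1)
  have m6 := hmax (i + 1 + 1 + 1 + 1 + 1 + 1)
  generalize C.pt i = u0 at *
  generalize C.pt (i + 1) = u1 at *
  generalize C.pt (i + 1 + 1) = u2 at *
  generalize C.pt (i + 1 + 1 + 1) = u3 at *
  generalize C.pt (i + 1 + 1 + 1 + 1) = u4 at *
  generalize C.pt (i + 1 + 1 + 1 + 1 + 1) = u5 at *
  generalize C.pt (i + 1 + 1 + 1 + 1 + 1 + 1) = u6 at *
  have l0 := stepUp a0.symm hi' m0 hi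
  have l2 : u2.1.1 = J := by
    by_contra hcon
    have := stepUp a1 hi' m2 hcon
    exact n0 (Subtype.ext (Prod.ext (by omega) (by omega)))
  have p2 := stepJ a1 hi' l2
  have t03 := hconn.dist_triangle (u := u0) (v := u3) (w := u6)
  have t04 := hconn.dist_triangle (u := u0) (v := u4) (w := u6)
  have t05 := hconn.dist_triangle (u := u0) (v := u5) (w := u6)
  have t35 := hconn.dist_triangle (u := u3) (v := u5) (w := u6)
  have t34 := hconn.dist_triangle (u := u3) (v := u4) (w := u5)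
  have t45 := hconn.dist_triangle (u := u4) (v := u5) (w := u6)
  by_cases l3 : u3.1.1 = J
  swap
  · have q := stepUp a2 l2 m3 l3
    have := hor' u0 u3 (by omega) 1 (by omega) (by omega)
    omega
  have p3 := stepJ a2 l2 l3
  by_cases l4 : u4.1.1 = J
  swap
  · have q := stepUp a3 l3 m4 l4
    have := hor' u0 u4 (by omega) 1 (by omega) (by omega)
    omega
  have p4 := stepJ a3 l3 l4
  by_cases l5 : u5.1.1 = J
  swap
  · have q := stepUp a4 l4 m5 l5
    have := hor' u0 u5 (by omega) 2 (by omega) (by omega)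
    omega
  have p5 := stepJ a4 l4 l5
  by_cases l6 : u6.1.1 = J
  swap
  · have q := stepUp a5 l5 m6 l6
    have := hor' u0 u6 (by omega) 2 (by omega) (by omega)
    omega
  have p6 := stepJ a5 l5 l6
  -- the parent of `u6`
  have hp : J - 1 ≤ R ∧ u6.1.2 / 2 < 2 ^ (J - 1) := by
    have h7 := u6.2
    rw [l6] at h7
    refine ⟨by omega, ?_⟩
    have h8 : 2 ^ J = 2 ^ (J - 1) * 2 := by rw [← pow_succ]; congr 1; omega
    rw [h8] at h7
    omega
  have hadj : (XG R).Adj ⟨(J - 1, u6.1.2 / 2), hp⟩ u6 := by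
    rw [XG_adj]; right; left; exact ⟨by simp only; omega, rfl⟩
  have h9 := hor' u0 ⟨(J - 1, u6.1.2 / 2), hp⟩ (by simp only; omega) 3 (by simp only; omega) (by simp only; omega)
  have h10 := SimpleGraph.dist_eq_one_iff_adj.2 hadj
  have h11 := hconn.dist_triangle (u := u0) (v := ⟨(J - 1, u6.1.2 / 2), hp⟩) (w := u6)
  omega

theorem BGC_le (R : ℕ) : BGC (XG R) ≤ 10 := by
  apply Nat.sInf_le
  refine ⟨by norm_num, fun C hC => ?_⟩
  unfold LocallyGeodesic at hC
  push Not at hC
  obtain ⟨x, y, -, hxy⟩ := hC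
  have h1 := cdist_le C x y
  obtain ⟨i, hi⟩ := short C
  refine ⟨i, i + ((6 : ℕ) : ZMod C.len), hi, ?_⟩
  rw [cdist_add C i 6 (by omega)]
  norm_num

/-! ### the lower bound -/

/-- a cycle from a sequence -/
def mkCycle {V : Type} {G : SimpleGraph V} (m : ℕ) (hm : 3 ≤ m) (f : ℕ → V)
    (hinj : ∀ i < m, ∀ j < m, f i = f j → i = j) (hadj : ∀ i, i + 1 < m → G.Adj (f i) (f (i + 1)))
    (hclose : G.Adj (f (m - 1)) (f 0)) : CycleIn G where
  len := m
  three_le := hm
  pt := fun i => f i.val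
  inj := by
    have : NeZero m := ⟨by omega⟩
    intro a b h
    exact ZMod.val_injective m (hinj _ (ZMod.val_lt a) _ (ZMod.val_lt b) h)
  adj := by
    have : NeZero m := ⟨by omega⟩
    have : Fact (1 < m) := ⟨by omega⟩
    intro i
    have h1 : (i + 1).val = (i.val + 1) % m := by
      rw [ZMod.val_add, ZMod.val_one]
    rw [h1]
    have h2 := ZMod.val_lt i
    rcases Nat.lt_or_ge (i.val + 1) m with h3 | h3
    · rw [Nat.mod_eq_of_lt h3]
      exact hadj _ h3
    · have h4 : i.val = m - 1 := by omega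
      rw [h4, Nat.sub_add_cancel (by omega), Nat.mod_self]
      exact hclose

/-- the sequence of vertices of the boundary cycle -/
def bd (R : ℕ) (t : ℕ) : XV R :=
  if h1 : t ≤ R then ⟨(t, 0), by constructor; exact h1; positivity⟩
  else if h2 : t < R + 2 ^ R then ⟨(R, t - R), le_rfl, by simp only; omega⟩
  else ⟨(2 ^ R + 2 * R - 1 - t, 2 ^ (2 ^ R + 2 * R - 1 - t) - 1), by simp only; omega,
    by simp only; exact Nat.sub_lt (by positivity) (by norm_num)⟩

theorem two_pow_pos' (R : ℕ) : 1 ≤ 2 ^ R := Nat.one_le_two_pow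

theorem bd_left {R t : ℕ} (h : t ≤ R) : (bd R t).1 = (t, 0) := by
  unfold bd
  rw [dif_pos h]

theorem bd_bot {R t : ℕ} (h : R ≤ t) (h2 : t < R + 2 ^ R) : (bd R t).1 = (R, t - R) := by
  unfold bd
  split_ifs with h3
  · have : t = R := by omega
    subst this
    simp
  · rfl

theorem bd_right {R t : ℕ} (h : R + 2 ^ R - 1 ≤ t) (hR : 1 ≤ R) :
    (bd R t).1 = (2 ^ R + 2 * R - 1 - t, 2 ^ (2 ^ R + 2 * R - 1 - t) - 1) := by
  have h2 : 2 ≤ 2 ^ R := by
    calc 2 = 2 ^ 1 := rfl
      _ ≤ 2 ^ R := Nat.pow_le_pow_right (by norm_num) hR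
  rcases Nat.lt_or_ge t (R + 2 ^ R) with h3 | h3
  · have h4 : t = R + 2 ^ R - 1 := by omega
    rw [bd_bot (by omega) h3, h4]
    have h5 : 2 ^ R + 2 * R - 1 - (R + 2 ^ R - 1) = R := by omega
    rw [h5]
    congr 1
    omega
  · unfold bd
    rw [dif_neg (by omega), dif_neg (by omega)]

def bdCycle (R : ℕ) (hR : 2 ≤ R) : CycleIn (XG R) :=
  mkCycle (2 ^ R + 2 * R - 1) (by have := two_pow_pos' R; omega) (bd R)
    (by
      have h2 : 4 ≤ 2 ^ R := by
        calc 4 = 2 ^ 2 := rfl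
          _ ≤ 2 ^ R := Nat.pow_le_pow_right (by norm_num) hR
      have hp : ∀ k, 1 ≤ k → 1 ≤ 2 ^ k - 1 := by
        intro k hk
        have : 2 ^ 1 ≤ 2 ^ k := Nat.pow_le_pow_right (by norm_num) hk
        omega
      intro i hi j hj hij
      have hij' := congrArg Subtype.val hij
      rcases Nat.lt_or_ge R i with hiR | hiR <;> rcases Nat.lt_or_ge R j with hjR | hjR
      · rcases Nat.lt_or_ge i (R + 2 ^ R) with hi2 | hi2 <;> rcases Nat.lt_or_ge j (R + 2 ^ R) with hj2 | hj2
        · rw [bd_bot (by omega) hi2, bd_bot (by omega) hj2, Prod.mk.injEq] at hij'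
          omega
        · rw [bd_bot (by omega) hi2, bd_right (by omega) (by omega), Prod.mk.injEq] at hij'
          omega
        · rw [bd_right (by omega) (by omega), bd_bot (by omega) hj2, Prod.mk.injEq] at hij'
          omega
        · rw [bd_right (by omega) (by omega), bd_right (by omega) (by omega), Prod.mk.injEq] at hij'
          omega
      · rw [bd_left hjR] at hij'
        rcases Nat.lt_or_ge i (R + 2 ^ R) with hi2 | hi2
        · rw [bd_bot (by omega) hi2, Prod.mk.injEq] at hij'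
          omega
        · rw [bd_right (by omega) (by omega), Prod.mk.injEq] at hij'
          have := hp (2 ^ R + 2 * R - 1 - i) (by omega)
          omega
      · rw [bd_left hiR] at hij'
        rcases Nat.lt_or_ge j (R + 2 ^ R) with hj2 | hj2
        · rw [bd_bot (by omega) hj2, Prod.mk.injEq] at hij'
          omega
        · rw [bd_right (by omega) (by omega), Prod.mk.injEq] at hij'
          have := hp (2 ^ R + 2 * R - 1 - j) (by omega)
          omega
      · rw [bd_left hiR, bd_left hjR, Prod.mk.injEq] at hij'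
        exact hij'.1)
    (by
      have h2 : 4 ≤ 2 ^ R := by
        calc 4 = 2 ^ 2 := rfl
          _ ≤ 2 ^ R := Nat.pow_le_pow_right (by norm_num) hR
      intro i hi
      rw [XG_adj]
      rcases Nat.lt_or_ge i R with h3 | h3
      · rw [bd_left (by omega), bd_left (by omega)]
        right; left
        simp
      · rcases Nat.lt_or_ge (i + 1) (R + 2 ^ R) with h4 | h4
        · rw [bd_bot h3 (by omega), bd_bot (by omega) h4]
          left
          refine ⟨rfl, Or.inl ?_⟩
          simp only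
          omega
        · rw [bd_right (by omega) (by omega), bd_right (by omega) (by omega)]
          right; right
          have e : 2 ^ R + 2 * R - 1 - i = 2 ^ R + 2 * R - 1 - (i + 1) + 1 := by omega
          simp only
          refine ⟨e, ?_⟩
          rw [e, pow_succ]
          have := two_pow_pos' (2 ^ R + 2 * R - 1 - (i + 1))
          omega)
    (by
      have h2 : 4 ≤ 2 ^ R := by
        calc 4 = 2 ^ 2 := rfl
          _ ≤ 2 ^ R := Nat.pow_le_pow_right (by norm_num) hR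
      rw [XG_adj, bd_right (by omega) (by omega), bd_left (by omega)]
      have e : 2 ^ R + 2 * R - 1 - (2 ^ R + 2 * R - 1 - 1) = 1 := by omega
      rw [e]
      right; right
      simp)

theorem ver {R : ℕ} : ∀ d a : ℕ, a + d ≤ R → (XG R).dist (bd R a) (bd R (a + d)) ≤ d := by
  intro d
  induction d with
  | zero => intro a _; simp
  | succ d ih =>
    intro a h
    have h1 := ih a (by omega)
    have hadj : (XG R).Adj (bd R (a + d)) (bd R (a + (d + 1))) := by
      rw [XG_adj, bd_left (by omega), bd_left (by omega)]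
      right; left
      simp; ring
    have h2 := (XG_connected R).dist_triangle (u := bd R a) (v := bd R (a + d)) (w := bd R (a + (d + 1)))
    have h3 := SimpleGraph.dist_eq_one_iff_adj.2 hadj
    omega

theorem lev_lip {R : ℕ} (x y : XV R) : x.1.1 ≤ y.1.1 + (XG R).dist x y := by
  have := lip (XG_connected R) (fun x => (x.1.1 : ℤ)) (by
    intro a b h
    rw [XG_adj] at h
    omega) x y
  exact_mod_cast this

/-- the potential separating the two sides -/
theorem pot_lip {R : ℕ} (x y : XV R) :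
    (x.1.1 : ℤ) - Nat.log 2 (x.1.2 + 1) ≤ (y.1.1 : ℤ) - Nat.log 2 (y.1.2 + 1) + (XG R).dist x y := by
  refine lip (XG_connected R) (fun x => (x.1.1 : ℤ) - Nat.log 2 (x.1.2 + 1)) ?_ x y
  intro a b h
  rw [XG_adj] at h
  -- logarithm facts
  have hmono : ∀ u v : ℕ, u ≤ v → Nat.log 2 u ≤ Nat.log 2 v := fun u v h => Nat.log_mono_right h
  have hdouble : ∀ u : ℕ, 1 ≤ u → Nat.log 2 (2 * u) = Nat.log 2 u + 1 := by
    intro u hu
    rw [mul_comm]
    exact Nat.log_mul_base (by norm_num) (by omega)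
  have hsucc : ∀ u : ℕ, 1 ≤ u → Nat.log 2 (u + 1) ≤ Nat.log 2 u + 1 := by
    intro u hu
    rw [← hdouble u hu]
    exact hmono _ _ (by omega)
  rcases h with ⟨h1, h2 | h2⟩ | ⟨h1, h2⟩ | ⟨h1, h2⟩
  · have := hsucc (a.1.2 + 1) (by omega)
    rw [show a.1.2 + 1 + 1 = b.1.2 + 1 by omega] at this
    have h3 := hmono (a.1.2 + 1) (b.1.2 + 1) (by omega)
    omega
  · have := hsucc (b.1.2 + 1) (by omega)
    rw [show b.1.2 + 1 + 1 = a.1.2 + 1 by omega] at this
    have h3 := hmono (b.1.2 + 1) (a.1.2 + 1) (by omega)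
    omega
  · -- b is a child of a
    have h3 := hmono (b.1.2 + 1) (2 * (a.1.2 + 1)) (by omega)
    rw [hdouble _ (by omega)] at h3
    omega
  · -- a is a child of b
    have h3 := hmono (b.1.2 + 1) (a.1.2 + 1) (by omega)
    omega

theorem lt_bgc (K : ℕ) : K < bgc (XG (3 * K + 5)) := by
  by_contra hcon
  push Not at hcon
  set R := 3 * K + 5 with hR
  have hmem := Nat.sInf_mem (bgc_set_nonempty (XG R))
  have hmem' : bgc (XG R) ∈ {μ | 1 ≤ μ ∧ ∀ C : CycleIn (XG R), ¬ LocallyGeodesic C μ → ∀ S, IsSide C μ S →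
    ∃ v ∈ S, ∃ z, z ∉ S ∧ IsKBridge C ((μ + 1) / 2) v z} := hmem
  generalize bgc (XG R) = μ at hcon hmem'
  obtain ⟨hμ1, hμ⟩ := hmem'
  clear hmem
  have hpow : 2 * R ≤ 2 ^ R := by
    have hlt : R - 1 < 2 ^ (R - 1) := Nat.lt_two_pow_self
    have : 2 ^ R = 2 ^ (R - 1) * 2 := by rw [← pow_succ]; congr 1
    omega
  set C := bdCycle R (by omega) with hC
  have hlen : C.len = 2 ^ R + 2 * R - 1 := rfl
  have hpt : ∀ a : ℕ, a < C.len → C.pt (a : ZMod C.len) = bd R a := by
    intro a ha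
    change bd R (a : ZMod C.len).val = bd R a
    rw [ZMod.val_natCast, Nat.mod_eq_of_lt ha]
  set s := K + 2 with hs
  have hcast : ∀ t : ℕ, (s : ZMod C.len) + (t : ZMod C.len) = ((s + t : ℕ) : ZMod C.len) := by
    intro t; push_cast; ring
  have hd : (XG R).dist (C.pt (s : ZMod C.len)) (C.pt ((s : ZMod C.len) + ((μ + 1 : ℕ) : ZMod C.len))) = μ + 1 := by
    rw [hcast, hpt s (by omega), hpt (s + (μ + 1)) (by omega)]
    apply le_antisymm
    · exact ver (μ + 1) s (by omega)
    · have := lev_lip (bd R (s + (μ + 1))) (bd R s)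
      rw [bd_left (by omega), bd_left (by omega), dist_comm] at this
      simp only at this
      omega
  have hcd : C.cdist (s : ZMod C.len) ((s : ZMod C.len) + ((μ + 1 : ℕ) : ZMod C.len)) = μ + 1 :=
    cdist_add C _ (μ + 1) (by omega)
  have hnl : ¬ LocallyGeodesic C μ := by
    intro h
    have := h _ _ (hd.trans hcd.symm)
    omega
  obtain ⟨v, hv, z, hz, hb1, hb2⟩ := hμ C hnl _ ⟨(s : ZMod C.len), hd, hcd, rfl⟩
  obtain ⟨t, ht, rfl⟩ := hv
  have : NeZero C.len := ⟨by omega⟩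
  have hzv := ZMod.val_lt z
  have hzc : z = ((z.val : ℕ) : ZMod C.len) := (ZMod.natCast_zmod_val z).symm
  generalize z.val = q at hzv hzc
  subst hzc
  rw [hcast] at hb1 hb2
  rw [hpt _ hzv, hpt _ (by omega)] at hb1
  rcases Nat.lt_or_ge R q with h1 | h1
  · rcases Nat.lt_or_ge q (R + 2 ^ R) with h2 | h2
    · have := lev_lip (bd R q) (bd R (s + t))
      rw [bd_bot (by omega) h2, bd_left (by omega), dist_comm] at this
      simp only at this
      omega
    · have := pot_lip (bd R (s + t)) (bd R q)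
      rw [bd_left (by omega), bd_right (by omega) (by omega)] at this
      simp only at this
      rw [Nat.sub_add_cancel (two_pow_pos' _), Nat.log_pow (by norm_num)] at this
      simp at this
      omega
  · have h3 := lev_lip (bd R q) (bd R (s + t))
    have h4 := lev_lip (bd R (s + t)) (bd R q)
    rw [dist_comm] at h3
    rw [bd_left h1, bd_left (by omega)] at h3 h4
    simp only at h3 h4
    unfold CycleIn.cdist at hb2
    rcases le_total q (s + t) with h5 | h5
    · have h6 : ((s + t : ℕ) : ZMod C.len) - (q : ZMod C.len) = ((s + t - q : ℕ) : ZMod C.len) := by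
        rw [Nat.cast_sub h5]
      have h7 : (((s + t : ℕ) : ZMod C.len) - (q : ZMod C.len)).val = s + t - q := by
        rw [h6, ZMod.val_natCast, Nat.mod_eq_of_lt (by omega)]
      rw [h7] at hb2
      omega
    · have h6 : (q : ZMod C.len) - ((s + t : ℕ) : ZMod C.len) = ((q - (s + t) : ℕ) : ZMod C.len) := by
        rw [Nat.cast_sub h5]
      have h7 : ((q : ZMod C.len) - ((s + t : ℕ) : ZMod C.len)).val = q - (s + t) := by
        rw [h6, ZMod.val_natCast, Nat.mod_eq_of_lt (by omega)]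
      rw [h7] at hb2
      omega

/-- There is no absolute constant `c` with `bgc(G) ≤ c * BGC(G)` for all finite connected graphs. -/
theorem result : ¬ ∃ c : ℝ, ∀ (V : Type) [Finite V] (G : SimpleGraph V), G.Connected →
    (bgc G : ℝ) ≤ c * BGC G := by
  rintro ⟨c, hc⟩
  obtain ⟨N, hN⟩ := exists_nat_gt (|c| * 10)
  have h1 := hc (XV (3 * N + 5)) (XG (3 * N + 5)) (XG_connected _)
  have h2 : (N : ℝ) < bgc (XG (3 * N + 5)) := by exact_mod_cast lt_bgc N
  have h3 : (BGC (XG (3 * N + 5)) : ℝ) ≤ 10 := by exact_mod_cast BGC_le (3 * N + 5)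
  have h4 : c * (BGC (XG (3 * N + 5)) : ℝ) ≤ |c| * 10 :=
    mul_le_mul (le_abs_self c) h3 (Nat.cast_nonneg _) (abs_nonneg c)
  linarith

end Pool.Agent.Results.MP_936e79_co.NoLinearBound
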